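import Pool.Agent.Run7.h873.SigGraph

/-!
# The linear growth constant of the number of edges of planar sphere-of-influence graphs

`f n` is the largest number of edges of the open sphere-of-influence graph of `n` points of the
plane.  We show `f n ≤ 9 n`, that `f n / n` converges, and that the limit is between 8 and 9.
-/

namespace Pool.Agent.Results.MP_62479d_co.EdgeConstant

open Metric Filter Topology

/-- The distance from `x` to the nearest other point of `S`. -/
noncomputable def influence (S : Finset (EuclideanSpace ℝ (Fin 2)))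
    (x : EuclideanSpace ℝ (Fin 2)) : ℝ :=
  infDist x ((S : Set (EuclideanSpace ℝ (Fin 2))) \ {x})

/-- The sphere-of-influence graph of `S`: its vertices are the points of `S`, and two distinct
points are adjacent when the open discs around them whose radii are the distances to their nearest
neighbours intersect. -/
def SIG (S : Finset (EuclideanSpace ℝ (Fin 2))) : SimpleGraph S where
  Adj x y := x ≠ y ∧
    (ball (x : EuclideanSpace ℝ (Fin 2)) (influence S x) ∩
      ball (y : EuclideanSpace ℝ (Fin 2)) (influence S y)).Nonempty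
  symm := ⟨fun _ _ h => ⟨h.1.symm, by rw [Set.inter_comm]; exact h.2⟩⟩
  loopless := ⟨fun _ h => h.1 rfl⟩

/-- `f n`: the largest number of edges of the sphere-of-influence graph of `n` points. -/
noncomputable def f (n : ℕ) : ℕ :=
  sSup {k | ∃ P : Finset (EuclideanSpace ℝ (Fin 2)), P.card = n ∧ (SIG P).edgeSet.ncard = k}

theorem le_nine (S : Finset (EuclideanSpace ℝ (Fin 2))) :
    (SIG S).edgeSet.ncard ≤ 9 * S.card :=
  Run7.h873.SigGraph.le_nine S

theorem bdd (n : ℕ) : BddAbove
    {k | ∃ P : Finset (EuclideanSpace ℝ (Fin 2)), P.card = n ∧ (SIG P).edgeSet.ncard = k} := by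
  refine ⟨9 * n, ?_⟩
  rintro _ ⟨P, rfl, rfl⟩
  exact le_nine P

theorem attained (n : ℕ) : ∃ P : Finset (EuclideanSpace ℝ (Fin 2)), P.card = n ∧
    (SIG P).edgeSet.ncard = f n := by
  obtain ⟨P, hP⟩ := Infinite.exists_subset_card_eq (EuclideanSpace ℝ (Fin 2)) n
  have hne : {k | ∃ P : Finset (EuclideanSpace ℝ (Fin 2)), P.card = n ∧
      (SIG P).edgeSet.ncard = k}.Nonempty := ⟨_, P, hP, rfl⟩
  exact Nat.sSup_mem hne (bdd n)

theorem le_f (P : Finset (EuclideanSpace ℝ (Fin 2))) :
    (SIG P).edgeSet.ncard ≤ f P.card :=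
  le_csSup (bdd P.card) ⟨P, rfl, rfl⟩

theorem f_le (n : ℕ) : f n ≤ 9 * n := by
  obtain ⟨P, rfl, h⟩ := attained n
  rw [← h]
  exact le_nine P

theorem f_super (a b : ℕ) : f a + f b ≤ f (a + b) := by
  obtain ⟨P, rfl, hP⟩ := attained a
  obtain ⟨Q, rfl, hQ⟩ := attained b
  obtain ⟨W, hW, h⟩ := Run7.h873.SigGraph.superadd P Q
  rw [← hP, ← hQ, ← hW]
  exact h.trans (le_f W)

theorem f_lower (m : ℕ) : 8 * (m * m) ≤ f ((m + 2) * (m + 2)) := by
  refine (Run7.h873.SigGraph.grid_lower m).trans ?_
  rw [← Run7.h873.SigGraph.card_grid (m + 2)]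
  exact le_f _

theorem exists_limit : ∃ c : ℝ, Tendsto (fun n : ℕ => (f n : ℝ) / n) atTop (𝓝 c) := by
  have hsub : Subadditive (fun n : ℕ => -(f n : ℝ)) := by
    intro m n
    have := f_super m n
    have h2 : (f m : ℝ) + f n ≤ f (m + n) := by exact_mod_cast this
    linarith
  have hbdd : BddBelow (Set.range fun n : ℕ => -(f n : ℝ) / n) := by
    refine ⟨-9, ?_⟩
    rintro _ ⟨n, rfl⟩
    simp only
    rcases Nat.eq_zero_or_pos n with rfl | hn
    · norm_num
    · have hn' : (0 : ℝ) < n := by exact_mod_cast hn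
      rw [le_div_iff₀ hn']
      have : (f n : ℝ) ≤ 9 * n := by exact_mod_cast f_le n
      linarith
  refine ⟨-hsub.lim, ?_⟩
  have h := (hsub.tendsto_lim hbdd).neg
  refine h.congr (fun n => ?_)
  ring

/-- **Edges of planar sphere-of-influence graphs.**  Let `f n` be the largest number of edges of the
(open) sphere-of-influence graph of a set of `n` points of the plane.  Then `f n ≤ 9 n` for every
`n`, `f (k ^ 2) ≥ 8 (k - 2) ^ 2`, and the constant `c = lim f n / n` exists and satisfies
`8 ≤ c ≤ 9`. -/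
theorem result :
    (∀ n : ℕ, f n ≤ 9 * n) ∧ (∀ k : ℕ, 8 * (k - 2) ^ 2 ≤ f (k ^ 2)) ∧
    ∃ c : ℝ, Tendsto (fun n : ℕ => (f n : ℝ) / n) atTop (𝓝 c) ∧ 8 ≤ c ∧ c ≤ 9 := by
  refine ⟨f_le, ?_, ?_⟩
  · intro k
    rcases le_total 2 k with hk | hk
    · obtain ⟨m, rfl⟩ := Nat.exists_eq_add_of_le' hk
      have := f_lower m
      rw [Nat.add_sub_cancel, pow_two, pow_two]
      exact this
    · rw [Nat.sub_eq_zero_of_le hk]
      simp
  · obtain ⟨c, hc⟩ := exists_limit
    refine ⟨c, hc, ?_, ?_⟩
    · have h1 : Tendsto (fun m : ℕ => (m + 2) * (m + 2)) atTop atTop := by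
        refine tendsto_atTop_mono (fun m => ?_) tendsto_id
        simp only [id]
        nlinarith
      have h2 := hc.comp h1
      have h3 : Tendsto (fun m : ℕ => 8 * (1 - 2 / ((m : ℝ) + 2)) ^ 2) atTop (𝓝 (8 * (1 - 0) ^ 2)) := by
        refine Tendsto.const_mul 8 ((Tendsto.const_sub 1 ?_).pow 2)
        refine Tendsto.div_atTop tendsto_const_nhds ?_
        exact tendsto_atTop_add_const_right _ _ tendsto_natCast_atTop_atTop
      have h4 := le_of_tendsto_of_tendsto' h3 h2 (fun m => by
        simp only [Function.comp]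
        have h5 : (8 : ℝ) * ((m : ℝ) * m) ≤ f ((m + 2) * (m + 2)) := by
          exact_mod_cast f_lower m
        push_cast
        have hpos : (0 : ℝ) < (m : ℝ) + 2 := by positivity
        rw [le_div_iff₀ (mul_pos hpos hpos)]
        refine le_trans (le_of_eq ?_) h5
        field_simp
        ring)
      norm_num at h4
      exact h4
    · refine le_of_tendsto' hc (fun n => ?_)
      rcases Nat.eq_zero_or_pos n with rfl | hn
      · norm_num
      · have hn' : (0 : ℝ) < n := by exact_mod_cast hn
        rw [div_le_iff₀ hn']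
        exact_mod_cast f_le n

end Pool.Agent.Results.MP_62479d_co.EdgeConstant
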